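import Pool.Agent.helper57.MS.Spec2

/-!
# ms:TH3: strongly separated families are good over all fields
-/

set_option autoImplicit false

open Finset

namespace Pool.Agent.helper57.MS

open Pool.Agent.RRank Pool.Agent.helper26.IM

theorem TH3 (hTH3R : TH3R_stmt) (hSRK : SRK_stmt) : TH3_stmt := by
  intro d hd 𝓚 R hR l
  obtain ⟨G, hG⟩ := hTH3R d l hd R
  refine ⟨G, ?_⟩
  intro K iK _ Q _ T hT
  exact hG K Q T (hT.trans ((hSRK K d Q R (cl2 R) hR T).2))

end Pool.Agent.helper57.MS
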